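import Pool.Agent.N352.PJ.Lat

/-!
# Project PJ (helper352), part NRM (helper572): the normal form of a unimodular lattice of odd rank
over the projective line over a finite field
-/

set_option autoImplicit false
set_option linter.all false

open Polynomial Matrix

namespace Pool.Agent.N572.PJ

section dg

variable {k : Type} [Field k]

/-- `p = 0` or the degree of `p` is at most `m` -/
def dg (m : ℤ) (p : k[X]) : Prop := ∀ i : ℕ, m < (i : ℤ) → p.coeff i = 0

theorem dg_iff (m : ℤ) (p : k[X]) : dg m p ↔ p = 0 ∨ (p.natDegree : ℤ) ≤ m := by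
  constructor
  · intro h
    by_cases hp : p = 0
    · exact Or.inl hp
    · refine Or.inr ?_
      by_contra hc
      rw [not_le] at hc
      exact hp (Polynomial.leadingCoeff_eq_zero.1 (h _ hc))
  · rintro (rfl | h) i hi
    · simp
    · apply Polynomial.coeff_eq_zero_of_natDegree_lt
      have := h.trans_lt hi
      exact_mod_cast this

theorem dg_zero (m : ℤ) : dg m (0 : k[X]) := fun i _ => by simp

theorem dg_add {m : ℤ} {p q : k[X]} (hp : dg m p) (hq : dg m q) : dg m (p + q) := fun i hi => by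
  rw [coeff_add, hp i hi, hq i hi, add_zero]

theorem dg_neg {m : ℤ} {p : k[X]} (hp : dg m p) : dg m (-p) := fun i hi => by
  rw [coeff_neg, hp i hi, neg_zero]

theorem dg_sum {ι : Type} (s : Finset ι) (f : ι → k[X]) (m : ℤ) (h : ∀ i ∈ s, dg m (f i)) :
    dg m (∑ i ∈ s, f i) := fun j hj => by
  rw [finset_sum_coeff]
  exact Finset.sum_eq_zero fun i hi => h i hi j hj

theorem dg_mul {m m' : ℤ} {p q : k[X]} (hp : dg m p) (hq : dg m' q) : dg (m + m') (p * q) := by
  intro i hi
  rw [coeff_mul]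
  refine Finset.sum_eq_zero fun x hx => ?_
  rw [Finset.HasAntidiagonal.mem_antidiagonal] at hx
  rcases lt_or_ge m (x.1 : ℤ) with h | h
  · rw [hp _ h, zero_mul]
  · rw [hq x.2 (by omega), mul_zero]

theorem dg_mono {m m' : ℤ} (h : m ≤ m') {p : k[X]} (hp : dg m p) : dg m' p := fun i hi =>
  hp i (h.trans_lt hi)

theorem dg_C {m : ℤ} (hm : 0 ≤ m) (c : k) : dg m (C c : k[X]) := fun i hi => by
  rw [coeff_C, if_neg (by omega)]

theorem dg_one {m : ℤ} (hm : 0 ≤ m) : dg m (1 : k[X]) := by
  rw [← C_1]; exact dg_C hm 1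

theorem dg_eq_zero {m : ℤ} (hm : m < 0) {p : k[X]} (h : dg m p) : p = 0 := by
  ext i
  rw [h i (by omega), coeff_zero]

theorem dg_const {m : ℤ} (hm : m ≤ 0) {p : k[X]} (h : dg m p) : p = C (p.coeff 0) := by
  ext i
  rw [coeff_C]
  split_ifs with hi
  · rw [hi]
  · exact h i (by omega)

end dg

section rel

variable {k : Type} [Field k] {n : ℕ} {w : Fin n → ℤ} {U V G : Matrix (Fin n) (Fin n) k[X]}

/-- the group of base changes which respect the weights -/
structure Uw (w : Fin n → ℤ) (U : Matrix (Fin n) (Fin n) k[X]) : Prop where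
  det : IsUnit U.det
  deg : ∀ i j, dg (w i - w j) (U i j)

theorem Uw.mul (hU : Uw w U) (hV : Uw w V) : Uw w (U * V) := by
  refine ⟨?_, fun i j => ?_⟩
  · rw [Matrix.det_mul]
    exact hU.det.mul hV.det
  · rw [Matrix.mul_apply]
    refine dg_sum _ _ _ fun a _ => ?_
    have := dg_mul (hU.deg i a) (hV.deg a j)
    rwa [sub_add_sub_cancel] at this

/-- forms which respect the weights -/
structure Gw (w : Fin n → ℤ) (G : Matrix (Fin n) (Fin n) k[X]) : Prop where
  symm : G.IsSymm
  det : G.det ≠ 0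
  deg : ∀ i j, dg (w i + w j) (G i j)

theorem Gw.conj (hG : Gw w G) (hU : Uw w U) : Gw w (U * G * Uᵀ) := by
  refine ⟨?_, ?_, fun i j => ?_⟩
  · rw [Matrix.IsSymm, Matrix.transpose_mul, Matrix.transpose_mul, Matrix.transpose_transpose,
      hG.symm, Matrix.mul_assoc]
  · rw [Matrix.det_mul, Matrix.det_mul, Matrix.det_transpose]
    exact mul_ne_zero (mul_ne_zero hU.det.ne_zero hG.det) hU.det.ne_zero
  · rw [Matrix.mul_apply]
    refine dg_sum _ _ _ fun a _ => ?_
    rw [Matrix.mul_apply, Matrix.transpose_apply, Finset.sum_mul]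
    refine dg_sum _ _ _ fun b _ => ?_
    have := dg_mul (dg_mul (hU.deg i b) (hG.deg b a)) (hU.deg j a)
    exact dg_mono (by linarith) this

theorem conj_mul : (U * V) * G * (U * V)ᵀ = U * (V * G * Vᵀ) * Uᵀ := by
  rw [Matrix.transpose_mul]
  simp only [Matrix.mul_assoc]

/-- permutations -/
theorem rel_perm (G : Matrix (Fin n) (Fin n) k[X]) (σ : Equiv.Perm (Fin n))
    (hσ : ∀ i, w (σ i) = w i) : ∃ U : Matrix (Fin n) (Fin n) k[X], Uw w U ∧ U * G * Uᵀ = G.submatrix σ σ := by
  refine ⟨(1 : Matrix (Fin n) (Fin n) k[X]).submatrix σ id, ⟨?_, fun i j => ?_⟩, ?_⟩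
  · rw [Matrix.det_permute, Matrix.det_one, mul_one]
    rcases Int.units_eq_one_or (Equiv.Perm.sign σ) with h | h <;> simp [h]
  · rw [Matrix.submatrix_apply, id, Matrix.one_apply]
    split_ifs with h
    · apply dg_one
      rw [← h, hσ]
      simp
    · exact dg_zero _
  · ext1 i j
    simp [Matrix.mul_apply, Matrix.one_apply]

/-- scaling -/
theorem rel_scale (G : Matrix (Fin n) (Fin n) k[X]) (l : Fin n) (c : k) (hc : c ≠ 0) :
    ∃ U : Matrix (Fin n) (Fin n) k[X], Uw w U ∧ ∀ i j, (U * G * Uᵀ) i j =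
      (if i = l then C c else 1) * G i j * (if j = l then C c else 1) := by
  classical
  refine ⟨Matrix.diagonal fun i => if i = l then C c else 1, ⟨?_, fun i j => ?_⟩, fun i j => ?_⟩
  · refine Matrix.isUnit_det_of_right_inverse
      (B := Matrix.diagonal fun i => if i = l then C c⁻¹ else 1) ?_
    rw [Matrix.diagonal_mul_diagonal, ← Matrix.diagonal_one]
    congr 1
    funext i
    split_ifs
    · rw [← C_mul, mul_inv_cancel₀ hc, C_1]
    · rw [mul_one]
  · rw [Matrix.diagonal_apply]
    split_ifs with h h'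
    · rw [h, sub_self]; exact dg_C le_rfl c
    · rw [h, sub_self]; exact dg_one le_rfl
    · exact dg_zero _
  · rw [Matrix.diagonal_transpose, Matrix.mul_diagonal, Matrix.diagonal_mul]

/-- `1 + N` with `N ^ 2 = 0` -/
theorem uw_trans (N : Matrix (Fin n) (Fin n) k[X]) (hN : N * N = 0)
    (hd : ∀ i j, dg (w i - w j) (N i j)) : Uw w (1 + N) := by
  refine ⟨?_, fun i j => ?_⟩
  · refine Matrix.isUnit_det_of_right_inverse (B := 1 - N) ?_
    rw [add_mul, mul_sub, mul_sub, one_mul, mul_one, hN]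
    simp
  · rw [Matrix.add_apply, Matrix.one_apply]
    refine dg_add ?_ (hd i j)
    split_ifs with h
    · rw [h, sub_self]; exact dg_one le_rfl
    · exact dg_zero _

/-- the Chevalley-Warning theorem for quadratic forms -/
theorem chev {F ι : Type} [Field F] [Finite F] [Fintype ι] (h3 : 3 ≤ Fintype.card ι)
    (G : ι → ι → F) : ∃ x : ι → F, x ≠ 0 ∧ ∑ i, ∑ j, G i j * x i * x j = 0 := by
  classical
  letI : Fintype F := Fintype.ofFinite F
  obtain ⟨p, hp⟩ := CharP.exists F
  have hprime : p.Prime := CharP.char_is_prime F p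
  let f : MvPolynomial ι F := ∑ i, ∑ j, MvPolynomial.C (G i j) * MvPolynomial.X i *
    MvPolynomial.X j
  have hdeg : f.totalDegree < Fintype.card ι := by
    have h1 : f.totalDegree ≤ 2 := by
      refine (MvPolynomial.totalDegree_finset_sum _ _).trans (Finset.sup_le fun i _ => ?_)
      refine (MvPolynomial.totalDegree_finset_sum _ _).trans (Finset.sup_le fun j _ => ?_)
      refine (MvPolynomial.totalDegree_mul _ _).trans ?_
      have h2 := MvPolynomial.totalDegree_mul (MvPolynomial.C (G i j)) (MvPolynomial.X i)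
      rw [MvPolynomial.totalDegree_C, MvPolynomial.totalDegree_X] at h2
      rw [MvPolynomial.totalDegree_X]
      omega
    omega
  have hcard := char_dvd_card_solutions p hdeg
  have hev : ∀ x : ι → F, MvPolynomial.eval x f = ∑ i, ∑ j, G i j * x i * x j := by
    intro x
    simp only [f, map_sum, map_mul, MvPolynomial.eval_C, MvPolynomial.eval_X]
  by_contra hcon
  push Not at hcon
  have h1 : Fintype.card {x : ι → F // MvPolynomial.eval x f = 0} = 1 := by
    rw [Fintype.card_eq_one_iff]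
    refine ⟨⟨0, by rw [hev]; simp⟩, ?_⟩
    rintro ⟨x, hx⟩
    by_contra hne
    have hx0 : x ≠ 0 := fun h => hne (Subtype.ext h)
    exact hcon x hx0 (by rw [← hev]; exact hx)
  rw [h1] at hcard
  exact hprime.one_lt.ne' (Nat.dvd_one.1 hcard)

/-- an isotropic vector in weight zero -/
theorem rel_isot [Finite k] (hn : 3 ≤ n) (hw : ∀ i, w i = 0) (hG : Gw w G) :
    ∃ U : Matrix (Fin n) (Fin n) k[X], Uw w U ∧ ∃ i, (U * G * Uᵀ) i i = 0 := by
  classical
  have hG0 : ∀ i j, G i j = C ((G i j).coeff 0) := fun i j =>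
    dg_const (by rw [hw, hw, add_zero]) (hG.deg i j)
  obtain ⟨x, hx0, hx⟩ := chev (F := k) (ι := Fin n) (by rw [Fintype.card_fin]; exact hn)
    (fun i j => (G i j).coeff 0)
  obtain ⟨i, hi⟩ : ∃ i, x i ≠ 0 := by
    by_contra h
    push Not at h
    exact hx0 (funext h)
  set v : Fin n → k[X] := fun j => C (x j) with hv
  refine ⟨(1 : Matrix (Fin n) (Fin n) k[X]).updateRow i v, ⟨?_, fun a b => ?_⟩, i, ?_⟩
  · have h1 := Matrix.cramer_transpose_apply (1 : Matrix (Fin n) (Fin n) k[X]) v i
    rw [Matrix.transpose_one, Matrix.cramer_one] at h1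
    rw [← h1]
    simp only [hv, Module.End.one_apply]
    exact Polynomial.isUnit_C.2 (isUnit_iff_ne_zero.2 hi)
  · rw [hw, hw, sub_zero, Matrix.updateRow_apply]
    split_ifs
    · exact dg_C le_rfl _
    · rw [Matrix.one_apply]
      split_ifs
      · exact dg_one le_rfl
      · exact dg_zero _
  · have h1 : ∀ a, ((1 : Matrix (Fin n) (Fin n) k[X]).updateRow i v) i a = C (x a) := fun a => by
      rw [Matrix.updateRow_self]
    rw [Matrix.mul_apply]
    simp only [Matrix.mul_apply, Matrix.transpose_apply, h1]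
    have h2 : ∑ a, (∑ b, C (x b) * G b a) * C (x a) =
        C (∑ b, ∑ a, (G b a).coeff 0 * x b * x a) := by
      rw [map_sum]
      simp only [map_sum, Finset.sum_mul]
      rw [Finset.sum_comm]
      refine Finset.sum_congr rfl fun b _ => Finset.sum_congr rfl fun a _ => ?_
      conv_lhs => rw [hG0 b a]
      rw [C_mul, C_mul]
      ring
    rw [h2, hx, C_0]

/-- `(1 + N) G (1 + N)ᵀ` for a matrix `N` supported in the columns `z`, `l` -/
theorem conj_trans (N G : Matrix (Fin n) (Fin n) k[X]) (z l : Fin n) (hzl : z ≠ l)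
    (hN : ∀ i j, j ≠ z → j ≠ l → N i j = 0) (i j : Fin n) :
    ((1 + N) * G * (1 + N)ᵀ : Matrix (Fin n) (Fin n) k[X]) i j =
      (G i j + N i z * G z j + N i l * G l j) +
      (G i z + N i z * G z z + N i l * G l z) * N j z +
      (G i l + N i z * G z l + N i l * G l l) * N j l := by
  classical
  have hsum : ∀ (f : Fin n → k[X]) (a : Fin n), (∀ j, j ≠ z → j ≠ l → f j = 0) →
      ∑ j, f j = f z + f l := by
    intro f a hf
    rw [← Finset.sum_subset (Finset.subset_univ {z, l}) ?_, Finset.sum_pair hzl]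
    intro j _ hj
    rw [Finset.mem_insert, Finset.mem_singleton, not_or] at hj
    exact hf j hj.1 hj.2
  have h1 : ∀ (M : Matrix (Fin n) (Fin n) k[X]) a b, ((1 + N) * M) a b =
      M a b + N a z * M z b + N a l * M l b := by
    intro M a b
    rw [add_mul, one_mul, Matrix.add_apply, Matrix.mul_apply,
      hsum (fun j => N a j * M j b) a (fun j h h' => by rw [hN a j h h', zero_mul])]
    ring
  have h2 : ∀ (M : Matrix (Fin n) (Fin n) k[X]) a b, (M * (1 + N)ᵀ : Matrix (Fin n) (Fin n) k[X]) a b =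
      M a b + M a z * N b z + M a l * N b l := by
    intro M a b
    rw [Matrix.transpose_add, mul_add, Matrix.transpose_one, mul_one, Matrix.add_apply,
      Matrix.mul_apply, hsum (fun j => M a j * Nᵀ j b) a
        (fun j h h' => by rw [Matrix.transpose_apply, hN b j h h', mul_zero])]
    simp only [Matrix.transpose_apply]
    ring
  rw [h2, h1, h1, h1]

/-- splitting off a hyperbolic plane -/
theorem split [Finite k] (h2 : (2 : k) ≠ 0) (hn : 3 ≤ n) (z l : Fin n) (hzl : z ≠ l)
    (hw0 : ∀ i, w z ≤ w i) (hw1 : ∀ i, w i ≤ w l) (hwl : w l = - w z) (hG : Gw w G) :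
    ∃ U : Matrix (Fin n) (Fin n) k[X], Uw w U ∧ (U * G * Uᵀ) z z = 0 ∧ (U * G * Uᵀ) z l = 1 ∧
      (U * G * Uᵀ) l l = 0 ∧ ∀ i, i ≠ z → i ≠ l →
        (U * G * Uᵀ) z i = 0 ∧ (U * G * Uᵀ) l i = 0 := by
  classical
  -- step 1
  have step1 : ∃ U : Matrix (Fin n) (Fin n) k[X], Uw w U ∧ (U * G * Uᵀ) z z = 0 := by
    have h0 : w z ≤ 0 := by
      have := hw0 l
      omega
    rcases h0.lt_or_eq with h | h
    · refine ⟨1, ⟨by rw [Matrix.det_one]; exact isUnit_one, fun i j => ?_⟩, ?_⟩
      · rw [Matrix.one_apply]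
        split_ifs with h
        · rw [h, sub_self]; exact dg_one le_rfl
        · exact dg_zero _
      · rw [one_mul, Matrix.transpose_one, mul_one]
        exact dg_eq_zero (by linarith) (hG.deg z z)
    · have hw : ∀ i, w i = 0 := fun i => by
        have h3 := hw0 i
        have h4 := hw1 i
        omega
      obtain ⟨U, hU, i, hi⟩ := rel_isot hn hw hG
      obtain ⟨V, hV, hVG⟩ := rel_perm (w := w) (U * G * Uᵀ) (Equiv.swap z i)
        (fun a => by rw [hw, hw])
      refine ⟨V * U, hV.mul hU, ?_⟩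
      rw [conj_mul, hVG, Matrix.submatrix_apply, Equiv.swap_apply_left, hi]
  -- step 2
  have step2 : ∃ U : Matrix (Fin n) (Fin n) k[X], Uw w U ∧ (U * G * Uᵀ) z z = 0 ∧
      (U * G * Uᵀ) z l = 1 := by
    obtain ⟨U, hU, hUz⟩ := step1
    have hG1 := hG.conj hU
    set G1 := U * G * Uᵀ with hG1def
    obtain ⟨b, hb⟩ : ∃ b, G1 z b ≠ 0 := by
      by_contra hc
      push Not at hc
      exact hG1.det (Matrix.det_eq_zero_of_row_eq_zero z hc)
    have hbz : b ≠ z := by
      rintro rfl
      exact hb hUz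
    have hwb : w b = w l := by
      refine le_antisymm (hw1 b) ?_
      by_contra hc
      rw [not_le] at hc
      exact hb (dg_eq_zero (by linarith) (hG1.deg z b))
    obtain ⟨V, hV, hVG⟩ := rel_perm (w := w) G1 (Equiv.swap l b) (fun a => by
      rw [Equiv.swap_apply_def]
      split_ifs with h h'
      · rw [h, hwb]
      · rw [h', hwb]
      · rfl)
    have hG2 := hG1.conj hV
    set c : k := (G1 z b).coeff 0 with hc
    have hcC : G1 z b = C c := dg_const (by rw [hwb]; linarith) (hG1.deg z b)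
    have hc0 : c ≠ 0 := by
      intro h
      rw [h, C_0] at hcC
      exact hb hcC
    obtain ⟨W, hW, hWG⟩ := rel_scale (w := w) (V * G1 * Vᵀ) l c⁻¹ (inv_ne_zero hc0)
    refine ⟨W * (V * U), hW.mul (hV.mul hU), ?_, ?_⟩
    · rw [conj_mul, conj_mul, ← hG1def, hWG, if_neg hzl, hVG, Matrix.submatrix_apply,
        Equiv.swap_apply_of_ne_of_ne hzl hbz.symm, hUz]
      ring
    · rw [conj_mul, conj_mul, ← hG1def, hWG, if_neg hzl, if_pos rfl, hVG, Matrix.submatrix_apply,
        Equiv.swap_apply_of_ne_of_ne hzl hbz.symm, Equiv.swap_apply_left, hcC, one_mul, ← C_mul,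
        mul_inv_cancel₀ hc0, C_1]
  -- step 3
  have step3 : ∃ U : Matrix (Fin n) (Fin n) k[X], Uw w U ∧ (U * G * Uᵀ) z z = 0 ∧
      (U * G * Uᵀ) z l = 1 ∧ (U * G * Uᵀ) l l = 0 := by
    obtain ⟨U, hU, hUz, hUl⟩ := step2
    have hG1 := hG.conj hU
    set G1 := U * G * Uᵀ with hG1def
    set a : k[X] := - (C (2⁻¹ : k) * G1 l l) with ha
    set N : Matrix (Fin n) (Fin n) k[X] := Matrix.of fun i j => if i = l ∧ j = z then a else 0
      with hN
    have hNa : ∀ i j, N i j = if i = l ∧ j = z then a else 0 := fun i j => rfl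
    have hNN : N * N = 0 := by
      ext1 i j
      rw [Matrix.mul_apply, Matrix.zero_apply]
      refine Finset.sum_eq_zero fun x _ => ?_
      rw [hNa, hNa]
      by_cases hx : x = z
      · rw [if_neg (c := x = l ∧ j = z) (fun h => hzl (hx.symm.trans h.1)), mul_zero]
      · rw [if_neg (fun h => hx h.2), zero_mul]
    have hNU : Uw w (1 + N) := by
      refine uw_trans N hNN fun i j => ?_
      rw [hNa]
      split_ifs with h
      · rw [h.1, h.2, ha]
        have h3 := dg_mul (dg_C (le_refl (0 : ℤ)) (2⁻¹ : k)) (hG1.deg l l)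
        refine dg_neg (dg_mono ?_ h3)
        linarith
      · exact dg_zero _
    have hconj := conj_trans N G1 z l hzl (fun i j h _ => by
      rw [hNa, if_neg (fun h' => h h'.2)])
    have n1 : N z z = 0 := by rw [hNa, if_neg (fun h => hzl h.1)]
    have n2 : N z l = 0 := by rw [hNa, if_neg (fun h => hzl h.1)]
    have n3 : N l z = a := by rw [hNa, if_pos ⟨rfl, rfl⟩]
    have n4 : N l l = 0 := by rw [hNa, if_neg (fun h => hzl h.2.symm)]
    have hlz : G1 l z = 1 := by rw [← hUl]; exact congrFun (congrFun hG1.symm z) l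
    have hhalf : C (2⁻¹ : k) * 2 = 1 := by
      rw [show (2 : k[X]) = C (2 : k) from (map_ofNat C 2).symm, ← C_mul, inv_mul_cancel₀ h2, C_1]
    refine ⟨(1 + N) * U, hNU.mul hU, ?_, ?_, ?_⟩
    · rw [conj_mul, ← hG1def, hconj, n1, n2, hUz]
      ring
    · rw [conj_mul, ← hG1def, hconj, n1, n2, n3, n4, hUz, hUl]
      ring
    · rw [conj_mul, ← hG1def, hconj, n3, n4, hUz, hUl, hlz, ha]
      linear_combination (-(G1 l l)) * hhalf
  -- step 4
  obtain ⟨U, hU, hUz, hUl, hUll⟩ := step3
  have hG1 := hG.conj hU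
  set G1 := U * G * Uᵀ with hG1def
  have hsym : ∀ i j, G1 i j = G1 j i := fun i j => congrFun (congrFun hG1.symm j) i
  set N : Matrix (Fin n) (Fin n) k[X] := Matrix.of fun i j =>
    if i = z ∨ i = l then 0 else if j = z then - G1 i l else if j = l then - G1 i z else 0
    with hN
  have hNa : ∀ i j, N i j = if i = z ∨ i = l then 0 else if j = z then - G1 i l else
    if j = l then - G1 i z else 0 := fun i j => rfl
  have hNN : N * N = 0 := by
    ext1 i j
    rw [Matrix.mul_apply, Matrix.zero_apply]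
    refine Finset.sum_eq_zero fun x _ => ?_
    rw [hNa i x, hNa x j]
    by_cases hx : x = z ∨ x = l
    · rw [if_pos hx, mul_zero]
    · rw [not_or] at hx
      rw [if_neg hx.1, if_neg hx.2]
      simp
  have hNU : Uw w (1 + N) := by
    refine uw_trans N hNN fun i j => ?_
    rw [hNa]
    split_ifs with h h' h''
    · exact dg_zero _
    · rw [h']
      refine dg_neg (dg_mono ?_ (hG1.deg i l))
      linarith
    · rw [h'']
      refine dg_neg (dg_mono ?_ (hG1.deg i z))
      linarith
    · exact dg_zero _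
  have hconj := conj_trans N G1 z l hzl (fun i j h h' => by
    rw [hNa, if_neg h, if_neg h']
    simp)
  have n1 : ∀ j, N z j = 0 := fun j => by rw [hNa, if_pos (Or.inl rfl)]
  have n2 : ∀ j, N l j = 0 := fun j => by rw [hNa, if_pos (Or.inr rfl)]
  have hlz : G1 l z = 1 := by rw [hsym, hUl]
  refine ⟨(1 + N) * U, hNU.mul hU, ?_, ?_, ?_, fun i hiz hil => ⟨?_, ?_⟩⟩
  · rw [conj_mul, ← hG1def, hconj, n1, n1, hUz]
    ring
  · rw [conj_mul, ← hG1def, hconj, n1, n1, n2, n2, hUz, hUl]
    ring
  · rw [conj_mul, ← hG1def, hconj, n2, n2, hUll]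
    ring
  · have n3 : N i z = - G1 i l := by
      rw [hNa, if_neg (not_or.2 ⟨hiz, hil⟩), if_pos rfl]
    have n4 : N i l = - G1 i z := by
      rw [hNa, if_neg (not_or.2 ⟨hiz, hil⟩), if_neg hzl.symm, if_pos rfl]
    rw [conj_mul, ← hG1def, hconj, n1, n1, n3, n4, hUz, hUl, hsym z i]
    ring
  · have n3 : N i z = - G1 i l := by
      rw [hNa, if_neg (not_or.2 ⟨hiz, hil⟩), if_pos rfl]
    have n4 : N i l = - G1 i z := by
      rw [hNa, if_neg (not_or.2 ⟨hiz, hil⟩), if_neg hzl.symm, if_pos rfl]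
    rw [conj_mul, ← hG1def, hconj, n2, n2, n3, n4, hUll, hlz, hsym l i]
    ring

end rel

/-! ### Blocks -/

section blk

/-- the index `i + 1` -/
def mid {n : ℕ} (i : Fin n) : Fin (n + 2) := i.succ.castSucc

/-- the middle indices and the two corners -/
def ef {n : ℕ} : Fin n ⊕ Fin 2 → Fin (n + 2) :=
  Sum.elim mid (fun i => if i = 0 then 0 else Fin.last (n + 1))

theorem mid_val {n : ℕ} (i : Fin n) : (mid i : ℕ) = i + 1 := rfl

theorem mid_ne_zero {n : ℕ} (i : Fin n) : mid i ≠ 0 := by
  intro h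
  have := congrArg Fin.val h
  rw [mid_val] at this
  simp at this

theorem mid_ne_last {n : ℕ} (i : Fin n) : mid i ≠ Fin.last (n + 1) := by
  intro h
  have := congrArg Fin.val h
  rw [mid_val, Fin.val_last] at this
  have := i.2
  omega

theorem ef_bij (n : ℕ) : Function.Bijective (ef (n := n)) := by
  rw [Fintype.bijective_iff_injective_and_card]
  refine ⟨?_, by simp⟩
  rintro (i | i) (j | j) h
  · have := congrArg Fin.val h
    simp only [ef, Sum.elim_inl, mid_val] at this
    congr 1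
    exact Fin.ext (by omega)
  · exfalso
    simp only [ef, Sum.elim_inl, Sum.elim_inr] at h
    split_ifs at h
    · exact mid_ne_zero i h
    · exact mid_ne_last i h
  · exfalso
    simp only [ef, Sum.elim_inl, Sum.elim_inr] at h
    split_ifs at h
    · exact mid_ne_zero j h.symm
    · exact mid_ne_last j h.symm
  · have := congrArg Fin.val h
    congr 1
    fin_cases i <;> fin_cases j <;> simp [ef] at this ⊢

/-- the equivalence -/
noncomputable def ee (n : ℕ) : Fin n ⊕ Fin 2 ≃ Fin (n + 2) := Equiv.ofBijective ef (ef_bij n)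

theorem ee_inl {n : ℕ} (i : Fin n) : ee n (Sum.inl i) = mid i := rfl
theorem ee_zero {n : ℕ} : ee n (Sum.inr 0) = 0 := rfl
theorem ee_one {n : ℕ} : ee n (Sum.inr 1) = Fin.last (n + 1) := rfl

variable {R : Type} [CommRing R] {n : ℕ}

/-- the block matrix -/
noncomputable def blk (A : Matrix (Fin n) (Fin n) R) (B : Matrix (Fin 2) (Fin 2) R) :
    Matrix (Fin (n + 2)) (Fin (n + 2)) R :=
  (Matrix.fromBlocks A 0 0 B).submatrix (ee n).symm (ee n).symm

theorem blk_mul (A A' : Matrix (Fin n) (Fin n) R) (B B' : Matrix (Fin 2) (Fin 2) R) :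
    blk A B * blk A' B' = blk (A * A') (B * B') := by
  unfold blk
  rw [Matrix.submatrix_mul_equiv, Matrix.fromBlocks_multiply]
  simp

theorem blk_transpose (A : Matrix (Fin n) (Fin n) R) (B : Matrix (Fin 2) (Fin 2) R) :
    (blk A B)ᵀ = blk Aᵀ Bᵀ := by
  unfold blk
  rw [Matrix.transpose_submatrix, Matrix.fromBlocks_transpose]
  simp

theorem blk_det (A : Matrix (Fin n) (Fin n) R) (B : Matrix (Fin 2) (Fin 2) R) :
    (blk A B).det = A.det * B.det := by
  unfold blk
  rw [Matrix.det_submatrix_equiv_self, Matrix.det_fromBlocks_zero₂₁]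

theorem eq_blk (M : Matrix (Fin (n + 2)) (Fin (n + 2)) R) (A : Matrix (Fin n) (Fin n) R)
    (B : Matrix (Fin 2) (Fin 2) R) (h1 : ∀ i j, M (mid i) (mid j) = A i j)
    (h2 : ∀ i, M (mid i) 0 = 0) (h3 : ∀ i, M (mid i) (Fin.last (n + 1)) = 0)
    (h4 : ∀ i, M 0 (mid i) = 0) (h5 : ∀ i, M (Fin.last (n + 1)) (mid i) = 0)
    (h6 : M 0 0 = B 0 0) (h7 : M 0 (Fin.last (n + 1)) = B 0 1)
    (h8 : M (Fin.last (n + 1)) 0 = B 1 0) (h9 : M (Fin.last (n + 1)) (Fin.last (n + 1)) = B 1 1) :
    M = blk A B := by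
  unfold blk
  rw [← Matrix.submatrix_id_id M]
  have h : M.submatrix (ee n) (ee n) = Matrix.fromBlocks A 0 0 B := by
    ext1 i j
    rw [Matrix.submatrix_apply]
    rcases i with i | i <;> rcases j with j | j
    · rw [ee_inl, ee_inl, Matrix.fromBlocks_apply₁₁, h1]
    · rw [ee_inl, Matrix.fromBlocks_apply₁₂]
      fin_cases j
      · exact h2 i
      · exact h3 i
    · rw [ee_inl, Matrix.fromBlocks_apply₂₁]
      fin_cases i
      · exact h4 j
      · exact h5 j
    · rw [Matrix.fromBlocks_apply₂₂]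
      fin_cases i <;> fin_cases j
      · exact h6
      · exact h7
      · exact h8
      · exact h9
  rw [← h, Matrix.submatrix_submatrix, Equiv.self_comp_symm]

theorem blk_mid (A : Matrix (Fin n) (Fin n) R) (B : Matrix (Fin 2) (Fin 2) R) (i j : Fin n) :
    blk A B (mid i) (mid j) = A i j := by
  unfold blk
  rw [Matrix.submatrix_apply, ← ee_inl, ← ee_inl, Equiv.symm_apply_apply, Equiv.symm_apply_apply,
    Matrix.fromBlocks_apply₁₁]

/-- the antidiagonal matrix -/
def Jn (n : ℕ) (R : Type) [CommRing R] : Matrix (Fin n) (Fin n) R :=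
  Matrix.of fun i j => if j = Fin.rev i then 1 else 0

theorem mid_rev (i : Fin n) : Fin.rev (mid i) = mid (Fin.rev i) := by
  apply Fin.ext
  rw [Fin.val_rev, mid_val, mid_val, Fin.val_rev]
  omega

theorem Jn_blk (n : ℕ) (R : Type) [CommRing R] :
    Jn (n + 2) R = blk (Jn n R) !![0, 1; 1, 0] := by
  refine eq_blk _ _ _ ?_ ?_ ?_ ?_ ?_ ?_ ?_ ?_ ?_
  · intro i j
    simp only [Jn, Matrix.of_apply, mid_rev]
    have : mid j = mid (Fin.rev i) ↔ j = Fin.rev i := by
      rw [Fin.ext_iff, Fin.ext_iff, mid_val, mid_val]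
      omega
    simp only [this]
  · intro i
    simp only [Jn, Matrix.of_apply, mid_rev]
    rw [if_neg (mid_ne_zero _).symm]
  · intro i
    simp only [Jn, Matrix.of_apply, mid_rev]
    rw [if_neg (mid_ne_last _).symm]
  · intro i
    simp only [Jn, Matrix.of_apply, Fin.rev_zero]
    rw [if_neg (mid_ne_last _)]
  · intro i
    simp only [Jn, Matrix.of_apply, Fin.rev_last]
    rw [if_neg (mid_ne_zero _)]
  · simp only [Jn, Matrix.of_apply, Fin.rev_zero]
    rw [if_neg (Fin.last_pos.ne)]
    rfl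
  · simp [Jn]
  · simp [Jn]
  · simp only [Jn, Matrix.of_apply, Fin.rev_last]
    rw [if_neg (Fin.last_pos.ne')]
    rfl

end blk

section main

variable {k : Type} [Field k]

/-- the normal form -/
theorem normal [Finite k] (h2 : (2 : k) ≠ 0) : ∀ (g n : ℕ), n = 2 * g + 1 →
    ∀ (G : Matrix (Fin n) (Fin n) k[X]) (w : Fin n → ℤ) (κ : k), κ ≠ 0 → Gw w G →
    G.det = (-1) ^ g * C (κ ^ 2) → Monotone w → (∀ i, w (Fin.rev i) = - w i) →
    ∃ U : Matrix (Fin n) (Fin n) k[X], Uw w U ∧ U * G * Uᵀ = Jn n k[X] := by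
  classical
  intro g
  induction g with
  | zero =>
    intro n hn G w κ hκ hG hdet _ _
    obtain rfl : n = 1 := hn
    have h1 : G = Matrix.diagonal fun _ => C (κ ^ 2) := by
      have h3 : G.det = G 0 0 := Matrix.det_fin_one G
      ext1 i j
      have hi : i = 0 := Subsingleton.elim _ _
      have hj : j = 0 := Subsingleton.elim _ _
      rw [hi, hj, Matrix.diagonal_apply_eq, ← h3, hdet]
      simp
    refine ⟨Matrix.diagonal fun _ => C κ⁻¹, ⟨?_, fun i j => ?_⟩, ?_⟩
    · rw [Matrix.det_diagonal]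
      simp [hκ]
    · have hi : i = j := Subsingleton.elim _ _
      rw [hi, Matrix.diagonal_apply_eq]
      exact dg_C (by simp) _
    · rw [h1, Matrix.diagonal_transpose, Matrix.diagonal_mul_diagonal,
        Matrix.diagonal_mul_diagonal]
      ext1 i j
      have hi : i = 0 := Subsingleton.elim _ _
      have hj : j = 0 := Subsingleton.elim _ _
      rw [hi, hj, Matrix.diagonal_apply_eq, ← C_mul, ← C_mul]
      simp only [Jn, Matrix.of_apply]
      rw [if_pos (Subsingleton.elim _ _), ← C_1]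
      congr 1
      field_simp
  | succ g ih =>
    intro n hn G w κ hκ hG hdet hmono hrev
    obtain ⟨n, rfl⟩ : ∃ n', n = n' + 2 := ⟨2 * g + 1, by omega⟩
    have hn' : n = 2 * g + 1 := by omega
    have hzl : (0 : Fin (n + 2)) ≠ Fin.last (n + 1) := Fin.last_pos.ne
    have hwl : w (Fin.last (n + 1)) = - w 0 := by
      rw [← Fin.rev_zero, hrev]
    obtain ⟨U, hU, hzz, hz1, hll, hmid⟩ := split h2 (by omega) 0 (Fin.last (n + 1)) hzl
      (fun i => hmono (Fin.zero_le i)) (fun i => hmono (Fin.le_last i)) hwl hG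
    have hG1 := hG.conj hU
    have hdet1 : (U * G * Uᵀ).det = U.det * U.det * G.det := by
      rw [Matrix.det_mul, Matrix.det_mul, Matrix.det_transpose]
      ring
    set G1 := U * G * Uᵀ with hG1def
    have hsym : ∀ i j, G1 i j = G1 j i := fun i j => congrFun (congrFun hG1.symm j) i
    set A : Matrix (Fin n) (Fin n) k[X] := G1.submatrix mid mid with hA
    have hGA : G1 = blk A !![0, 1; 1, 0] := by
      refine eq_blk _ _ _ (fun i j => rfl) ?_ ?_ ?_ ?_ hzz hz1 (by rw [hsym]; exact hz1) hll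
      · intro i
        rw [hsym]
        exact (hmid (mid i) (mid_ne_zero i) (mid_ne_last i)).1
      · intro i
        rw [hsym]
        exact (hmid (mid i) (mid_ne_zero i) (mid_ne_last i)).2
      · intro i
        exact (hmid (mid i) (mid_ne_zero i) (mid_ne_last i)).1
      · intro i
        exact (hmid (mid i) (mid_ne_zero i) (mid_ne_last i)).2
    have hdetA : G1.det = - A.det := by
      rw [hGA, blk_det, Matrix.det_fin_two_of]
      ring
    obtain ⟨u, hu, huU⟩ := Polynomial.isUnit_iff.1 hU.det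
    have hdetA' : A.det = (-1) ^ g * C ((u * κ) ^ 2) := by
      have h3 : A.det = - (U.det * U.det * G.det) := by
        rw [← hdet1, hdetA, neg_neg]
      rw [h3, hdet, ← huU, mul_pow, C_mul, C_pow, C_pow, pow_succ]
      ring
    have hGwA : Gw (w ∘ mid) A := by
      refine ⟨?_, ?_, fun i j => hG1.deg _ _⟩
      · ext1 i j
        rw [Matrix.transpose_apply, hA, Matrix.submatrix_apply, Matrix.submatrix_apply, hsym]
      · intro h
        rw [h, neg_zero] at hdetA
        exact hG1.det hdetA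
    obtain ⟨V, hV, hVA⟩ := ih n hn' A (w ∘ mid) (u * κ) (mul_ne_zero hu.ne_zero hκ) hGwA hdetA'
      (fun i j hij => hmono (by
        rw [Fin.le_def, mid_val, mid_val]
        have : (i : ℕ) ≤ j := hij
        omega)) (fun i => by
        rw [Function.comp_apply, Function.comp_apply, ← mid_rev, hrev])
    refine ⟨blk V 1 * U, Uw.mul ⟨?_, ?_⟩ hU, ?_⟩
    · rw [blk_det, Matrix.det_one, mul_one]
      exact hV.det
    · intro i j
      obtain ⟨i, rfl⟩ := (ee n).surjective i
      obtain ⟨j, rfl⟩ := (ee n).surjective j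
      unfold blk
      rw [Matrix.submatrix_apply, Equiv.symm_apply_apply, Equiv.symm_apply_apply]
      rcases i with i | i <;> rcases j with j | j
      · rw [Matrix.fromBlocks_apply₁₁]
        exact hV.deg i j
      · rw [Matrix.fromBlocks_apply₁₂]
        exact dg_zero _
      · rw [Matrix.fromBlocks_apply₂₁]
        exact dg_zero _
      · rw [Matrix.fromBlocks_apply₂₂, Matrix.one_apply]
        split_ifs with h
        · rw [h, sub_self]
          exact dg_one le_rfl
        · exact dg_zero _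
    · rw [conj_mul, ← hG1def, hGA, blk_transpose, blk_mul, blk_mul, hVA, Matrix.transpose_one,
        one_mul, mul_one, Jn_blk]

/-- the inequality for the weights -/
theorem weights {n : ℕ} (G : Matrix (Fin n) (Fin n) k[X]) (w : Fin n → ℤ) (hdet : G.det ≠ 0)
    (hG : ∀ i j, dg (w i + w j) (G i j)) (hmono : Monotone w) (i : Fin n) :
    0 ≤ w i + w (Fin.rev i) := by
  classical
  by_contra hc
  rw [not_le] at hc
  apply hdet
  rw [Matrix.det_apply]
  refine Finset.sum_eq_zero fun σ _ => ?_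
  obtain ⟨b, hb, hσb⟩ : ∃ b, b ≤ Fin.rev i ∧ σ b ≤ i := by
    by_contra hcon
    push Not at hcon
    have h1 : (Finset.Iic (Fin.rev i)).card ≤ (Finset.Ioi i).card := by
      refine Finset.card_le_card_of_injOn σ (fun b hb => ?_) σ.injective.injOn
      rw [Finset.mem_coe, Finset.mem_Iic] at hb
      rw [Finset.mem_coe, Finset.mem_Ioi]
      exact hcon b hb
    rw [Fin.card_Iic, Fin.card_Ioi, Fin.val_rev] at h1
    have := i.2
    omega
  rw [Finset.prod_eq_zero (Finset.mem_univ b), smul_zero]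
  refine dg_eq_zero ?_ (hG (σ b) b)
  have h1 := hmono hb
  have h2 := hmono hσb
  linarith

end main

/-- NRM -/
theorem nrm : Pool.Agent.N352.PJ.S_NRM := by
  intro g k _ _ h2 G w κ hsymm hκ hdet hmono hsum hdeg
  have hdg : ∀ i j, dg (w i + w j) (G i j) := fun i j => (dg_iff _ _).2 (hdeg i j)
  have hdet0 : G.det ≠ 0 := by
    rw [hdet]
    refine mul_ne_zero (pow_ne_zero _ (neg_ne_zero.2 one_ne_zero)) ?_
    rw [Ne, C_eq_zero]
    exact pow_ne_zero 2 hκ
  have hwt := weights G w hdet0 hdg hmono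
  have hs : ∑ i, (w i + w (Fin.rev i)) = 0 := by
    rw [Finset.sum_add_distrib, hsum, zero_add]
    rw [← hsum]
    exact Equiv.sum_comp Fin.revPerm w
  have hall := (Finset.sum_eq_zero_iff_of_nonneg fun i _ => hwt i).1 hs
  have hrev : ∀ i, w (Fin.rev i) = - w i := fun i => by
    have := hall i (Finset.mem_univ i)
    linarith
  refine ⟨⟨hmono, hrev⟩, ?_⟩
  obtain ⟨U, hU, hUG⟩ := normal h2 g (2 * g + 1) rfl G w κ hκ ⟨hsymm, hdet0, hdg⟩ hdet hmono hrev
  exact ⟨U, hU.det, hUG, fun i j => (dg_iff _ _).1 (hU.deg i j)⟩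

end Pool.Agent.N572.PJ
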